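import Pool.Agent.helper56.P2B.SpecP
import Pool.Agent.helper54.V3.SpecT

/-!
# MP_70a088 P2 block B, row IJL: the limit map is injective
-/

set_option autoImplicit false

open Complex Metric Set Filter Topology MeasureTheory
open Pool.Agent.helper98.ILF
open WP (it)
open HY (UD T S hd UN RM)
open PM
open PL (TP LO PZ GJ INR PG DK ht tr DI CY SUBH hG hq BJ)
open P2 (SS FLS FL CLS FR TL)

noncomputable section

namespace P2B

/-- diagonal choice along a filter. -/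
theorem IJL_diag (V : Filter ℕ) (hV : V ≤ atTop) (z₀ : ℂ) (P : ℕ → ℂ → Prop)
    (h : ∀ ε > (0 : ℝ), ∀ᶠ l in V, ∃ z ∈ ball z₀ ε, P l z) : ∃ z : ℕ → ℂ, Tendsto z V (𝓝 z₀) ∧ ∀ᶠ l in V, P l (z l) := by
  classical
  set Q : ℕ → ℕ → Prop := fun l k => ∃ z ∈ ball z₀ (1 / ((k : ℝ) + 1)), P l z with hQ
  set N : ℕ → ℕ := fun l => Nat.findGreatest (Q l) l with hN
  have hev : ∀ k : ℕ, ∀ᶠ l in V, Q l (N l) ∧ k ≤ N l := by
    intro k
    have h1 : ∀ᶠ l in V, Q l k := h _ (by positivity)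
    have h2 : ∀ᶠ l in V, k ≤ l := hV (eventually_ge_atTop k)
    filter_upwards [h1, h2] with l h3 h4
    exact ⟨Nat.findGreatest_spec (P := Q l) h4 h3, Nat.le_findGreatest h4 h3⟩
  refine ⟨fun l => if hl : Q l (N l) then hl.choose else z₀, ?_, ?_⟩
  · rw [Metric.tendsto_nhds]
    intro ε hε
    obtain ⟨k, hk⟩ := exists_nat_one_div_lt hε
    filter_upwards [hev k] with l hl
    rw [dif_pos hl.1]
    have h1 := hl.1.choose_spec.1
    rw [mem_ball] at h1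
    calc dist hl.1.choose z₀ < 1 / ((N l : ℝ) + 1) := h1
      _ ≤ 1 / ((k : ℝ) + 1) := by
        apply one_div_le_one_div_of_le (by positivity)
        have : (k : ℝ) ≤ N l := by exact_mod_cast hl.2
        linarith
      _ < ε := hk
  · filter_upwards [hev 0] with l hl
    rw [dif_pos hl.1]
    exact hl.1.choose_spec.2

/-- the elements of the deck group. -/
theorem IJL_ty {Ω : Set ℂ} {G : ℂ → ℂ} (h : TY Ω G) {σ : Equiv.Perm ℂ} (hσ : σ ∈ DK Ω G) :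
    (∃ e : ℂ, σ = tr e) ∨ ∃ q : ℂ, σ = ht q := by
  rcases h with h | ⟨p, _, h⟩ | ⟨p, _, b, h⟩
  · left
    rw [h, Subgroup.mem_bot] at hσ
    refine ⟨0, ?_⟩
    rw [hσ]
    ext z
    simp [tr]
  · rcases (h σ).1 hσ with h1 | h1
    · left
      refine ⟨0, ?_⟩
      rw [h1]
      ext z
      simp [tr]
    · exact Or.inr ⟨p, h1⟩
  · obtain ⟨n, h1 | h1⟩ := (h.2 σ).1 hσ
    · exact Or.inl ⟨_, h1⟩
    · exact Or.inr ⟨_, h1⟩

theorem IJL (hGRT : GRT_stmt) (hGRH : GRH_stmt) (hCVA : CVA_stmt) (hTHU : V3.THU_stmt) (hFIB : PL.FIB_stmt) : IJL_stmt := by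
  intro V Ω φ χ G c₁ θ t s t₀ s₀ hN G₀ hG₀ hlim hnc ζ₁ h1 ζ₂ h2 he
  by_contra hne
  obtain ⟨_, _, _, hop, _, _, hcpt⟩ := hCVA V Ω φ χ hN.cv
  have hUDc : IsPreconnected (UD : Set ℂ) := (convex_ball (0 : ℂ) 1).isPreconnected
  have hSc : IsPreconnected (χ '' UD) := hUDc.image _ hN.cv.dif.continuousOn
  obtain ⟨r, hr, hrS⟩ := Metric.isOpen_iff.1 hop ζ₂ h2
  have hcb : closedBall ζ₂ (r / 2) ⊆ χ '' UD := (closedBall_subset_ball (by linarith)).trans hrS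
  have ev1 : ∀ᶠ l in (V : Filter ℕ), closedBall ζ₂ (r / 2) ⊆ Ω l := hcpt _ hcb (isCompact_closedBall _ _)
  have ev2 : ∀ᶠ l in (V : Filter ℕ), ζ₁ ∈ Ω l := by
    filter_upwards [hcpt {ζ₁} (by simpa using h1) isCompact_singleton] with l hl
    exact hl rfl
  have hpt : Tendsto (fun l => G l ζ₁) V (𝓝 (G₀ ζ₁)) := hlim.tendsto_at h1
  -- the zeros
  have hz : ∀ ε > (0 : ℝ), ∀ᶠ l in (V : Filter ℕ), ∃ z ∈ ball ζ₂ ε, G l z - G l ζ₁ = 0 := by
    refine hTHU V (fun l z => G l z - G l ζ₁) (fun z => G₀ z - G₀ ζ₁) ζ₂ (r / 2) (by linarith) ?_ ?_ ?_ ?_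
    · filter_upwards [ev1] with l hl
      exact ((hN.pg l).dif.mono (ball_subset_closedBall.trans hl)).sub_const _
    · rw [Metric.tendstoLocallyUniformlyOn_iff]
      intro ε hε x hx
      have h3 := Metric.tendstoLocallyUniformlyOn_iff.1 (hlim.mono (ball_subset_closedBall.trans hcb)) (ε / 2)
        (by linarith) x hx
      obtain ⟨u, hu, h4⟩ := h3
      refine ⟨u, hu, ?_⟩
      have h5 := (Metric.tendsto_nhds.1 hpt) (ε / 2) (by linarith)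
      filter_upwards [h4, h5] with l h6 h7 y hy
      have h8 := h6 y hy
      rw [dist_eq_norm] at h7 h8 ⊢
      calc ‖G₀ y - G₀ ζ₁ - (G l y - G l ζ₁)‖ = ‖(G₀ y - G l y) + (G l ζ₁ - G₀ ζ₁)‖ := by congr 1; ring
        _ ≤ ‖G₀ y - G l y‖ + ‖G l ζ₁ - G₀ ζ₁‖ := norm_add_le _ _
        _ < ε := by linarith
    · show G₀ ζ₂ - G₀ ζ₁ = 0
      rw [he, sub_self]
    · by_contra hno
      push Not at hno
      have han : AnalyticOnNhd ℂ G₀ (χ '' UD) := hG₀.analyticOnNhd hop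
      have hev : G₀ =ᶠ[𝓝 ζ₂] fun _ => G₀ ζ₁ := by
        filter_upwards [ball_mem_nhds ζ₂ (show (0 : ℝ) < r / 2 by linarith)] with x hx
        exact sub_eq_zero.1 (hno x hx)
      have heq := han.eqOn_of_preconnected_of_eventuallyEq analyticOnNhd_const hSc h2 hev
      obtain ⟨z, hz, hdz⟩ := hnc
      apply hdz
      have h3 : G₀ =ᶠ[𝓝 z] fun _ => G₀ ζ₁ := by
        filter_upwards [hop.mem_nhds hz] with x hx
        exact heq hx
      rw [h3.deriv_eq]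
      exact deriv_const _ _
  obtain ⟨ζ', hζ', hval⟩ := IJL_diag V hN.cv.le ζ₂ (fun l z => G l z - G l ζ₁ = 0) hz
  have ev3 : ∀ᶠ l in (V : Filter ℕ), ζ' l ∈ Ω l := by
    have h3 : ∀ᶠ l in (V : Filter ℕ), ζ' l ∈ closedBall ζ₂ (r / 2) := hζ' (closedBall_mem_nhds _ (by linarith))
    filter_upwards [ev1, h3] with l h4 h5
    exact h4 h5
  have ev4 : ∀ᶠ l in (V : Filter ℕ), tr (ζ' l - ζ₁) ∈ DK (Ω l) (G l) ∨ ht ((ζ' l + ζ₁) / 2) ∈ DK (Ω l) (G l) := by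
    filter_upwards [ev2, ev3, hval] with l h3 h4 h5
    obtain ⟨σ, hσ, hσ2⟩ := hFIB (Ω l) (G l) (hN.pg l) ζ₁ h3 (ζ' l) h4 (sub_eq_zero.1 h5).symm
    rcases IJL_ty (hN.ty l) hσ with ⟨e, rfl⟩ | ⟨q, rfl⟩
    · left
      have h6 : ζ₁ + e = ζ' l := hσ2
      rw [← h6, add_sub_cancel_left]
      exact hσ
    · right
      have h6 : 2 * q - ζ₁ = ζ' l := hσ2
      rw [← h6, sub_add_cancel, mul_div_cancel_left₀ _ (two_ne_zero)]
      exact hσ
  rcases Ultrafilter.eventually_or.1 ev4 with h3 | h3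
  · have h4 : Tendsto (fun l => ζ' l - ζ₁) V (𝓝 (ζ₂ - ζ₁)) := hζ'.sub_const _
    have h5 := hGRT V Ω φ χ G c₁ θ t s t₀ s₀ hN (fun l => ζ' l - ζ₁) (ζ₂ - ζ₁) h3 h4 ⟨ζ₁, h1, by
      rw [add_sub_cancel]; exact h2⟩
    have h6 : Tendsto (fun l => ζ' l - ζ₁) V (𝓝 0) := by
      refine Tendsto.congr' ?_ tendsto_const_nhds
      filter_upwards [h5] with l hl
      exact hl.symm
    exact hne (sub_eq_zero.1 (tendsto_nhds_unique h4 h6)).symm
  · refine hGRH V Ω φ χ G c₁ θ t s t₀ s₀ hN (fun l => (ζ' l + ζ₁) / 2) ((ζ₂ + ζ₁) / 2) h3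
      ((hζ'.add_const _).div_const _) ⟨ζ₁, h1, ?_⟩
    have : 2 * ((ζ₂ + ζ₁) / 2) - ζ₁ = ζ₂ := by ring
    rw [this]
    exact h2

end P2B
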