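import Pool.Agent.helper56.P2B.SpecD

/-!
# MP_70a088 P2 block B, row LNK: a return gives a link
-/

set_option autoImplicit false

open Complex Metric Set Filter Topology MeasureTheory
open Pool.Agent.helper98.ILF
open WP (it)
open HY (UD T S hd UN RM)
open PM
open PL (TP LO PZ GJ INR PG DK ht tr DI CY SUBH hG hq BJ)
open P2 (SS FLS FL CLS FR TL)

noncomputable section

namespace P2B

theorem LNK (hRVL : RVL_stmt) (hRAF : RAF_stmt) (hINC : INC_stmt) (hRLF : RLF_stmt) (hRJN : RJN_stmt) (hEX2 : EX2_stmt) :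
    LNK_stmt := by
  obtain ⟨r₁, hr₁, _, hRVL⟩ := hRVL
  obtain ⟨r₂, hr₂, hRLF⟩ := hRLF
  refine ⟨min r₁ r₂, lt_min hr₁ hr₂, ?_⟩
  intro f R hSS μ x₀ hTP x hx U hU n t m r e a₁ g hr hrr he her hFL hRET χ χ' G G' hP hP'
  have hr1 : r ≤ r₁ := hrr.trans (min_le_left _ _)
  have hr2 : r ≤ r₂ := hrr.trans (min_le_right _ _)
  have her' : e ≤ r := by linarith
  obtain ⟨κ, hκr, hκ1, hκt, hsub⟩ := hINC f R hSS x hx U n t (fun j => t j + m j) χ χ' r hr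
    (Eventually.of_forall fun j => Nat.le_add_right _ _) hP.fr hP'.fr (by
      filter_upwards [hRET] with j hj
      exact (hRVL f R hSS (x j) (hx j) (n j) (t j) (m j) r e (g j) hr hr1 her' hj).2.2.2.2.1)
  have hκ0 : 0 < κ := lt_of_lt_of_le hr hκr
  obtain ⟨a, b, ha, hb, hgt⟩ := hRAF f R hSS μ x₀ hTP x hx U hU n t m r e g hr he hFL hRET
  have ha0 : a ≠ 0 := by
    rintro rfl
    have h1 : |(0 : ℝ) - 1| = 1 := by norm_num
    rw [h1, le_div_iff₀ hr] at ha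
    linarith
  obtain ⟨hbS, M, M', hM, hM', hMU, hMU', hinv, hev⟩ := hRLF f R hSS x hx U hU n t m r e g hr hr2 he her' hRET
    χ χ' G G' hP.fr hP'.fr hP.tl hP'.tl κ a b hκ0 hb hκt hgt
  have hz0 : (0 : ℂ) ∈ χ' '' UD := hP'.pg.z0
  obtain ⟨hiff, heq⟩ := hEX2 (χ '' UD) (χ' '' UD) G G' hP.pg hP'.pg M M' hM hM' hMU hMU' hinv (a * κ) b 0
    (mul_ne_zero ha0 hκ0.ne') hz0 (by rw [mul_zero, zero_add]; exact hbS) (by
      filter_upwards [hev] with ζ hζ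
      rw [hζ]
      push_cast
      ring_nf)
  have hass : ∀ ζ : ℂ, ((a * κ : ℝ) : ℂ) * ζ + b = (a : ℂ) * ((κ : ℂ) * ζ) + b := by
    intro ζ; push_cast; ring
  refine ⟨κ, a, b, ⟨hκ0, hκ1, ha0, hsub, ?_, ⟨M, ?_, ?_⟩, ?_⟩, ha, hb, hgt, hκt⟩
  · intro ζ
    rw [← hass]
    exact hiff ζ
  · intro y hy z hz h
    rw [← (hinv y hy).1, h, (hinv z hz).1]
  · intro ζ hζ
    rw [← hass]
    exact heq ζ hζ
  · exact hRJN f R hSS x hx U hU n t m χ χ' G G' hP.fr hP'.fr hP.tl hP'.tl hP.pg.nc κ hκ0 hκt hsub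

end P2B
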